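import Pool.Agent.Q264.SN.Stm

set_option autoImplicit false

namespace Pool.Agent.Q121.SN.LOWER

open Finset Pool.Agent.Q264.SN

theorem t_LOWER (hMEAS : S_MEAS) (hTAIL : S_TAIL) (hFEAS : S_FEAS) : S_LOWER := by
  intro L
  obtain ⟨n, w, x, y, hw, hw1, hxy, hmom⟩ := hMEAS L
  set A : ℝ := 1 + ∑ k, (|x k| + |y k|) with hA
  have hS : 0 ≤ ∑ k, (|x k| + |y k|) := Finset.sum_nonneg fun k _ => by positivity
  have hA1 : 1 ≤ A := by rw [hA]; linarith
  have hA0 : 0 < A := by linarith
  have hxA : ∀ k, |x k| ≤ A ∧ |y k| ≤ A := by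
    intro k
    have h1 : |x k| + |y k| ≤ ∑ k, (|x k| + |y k|) :=
      Finset.single_le_sum (f := fun k => |x k| + |y k|) (fun j _ => by positivity)
        (Finset.mem_univ k)
    have h2 := abs_nonneg (x k)
    have h3 := abs_nonneg (y k)
    constructor <;> rw [hA] <;> linarith
  refine ⟨1 / (4 * (2 * A) ^ L), 1 / (2 * A), by positivity, by positivity, ?_, ?_⟩
  · rw [div_le_div_iff₀ (by positivity) (by norm_num)]
    linarith
  · intro σ hσ0 hσ1
    have hσA : 2 * σ * A ≤ 1 := by
      rw [le_div_iff₀ (by positivity)] at hσ1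
      linarith
    have hσA0 : 0 < 2 * σ * A := by positivity
    have hσh : σ ≤ 1 / 2 := by nlinarith
    obtain ⟨ρ, hρ0, hρ1, hρ⟩ := hTAIL σ hσ0 hσh
    set η : ℝ := (2 * σ * A) ^ L with hη
    have hη0 : 0 < η := by rw [hη]; positivity
    set M : ℝ := 1 / (2 * η) with hM
    have hM0 : 0 < M := by rw [hM]; positivity
    have hMη : M * η = 1 / 2 := by rw [hM]; field_simp
    obtain ⟨m, hm⟩ := exists_pow_lt_of_lt_one (show (0 : ℝ) < min (1 / 2) η by positivity) hρ1
    have hτ : ρ ^ (m + 1) ≤ min (1 / 2) η := by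
      have h1 : ρ ^ (m + 1) ≤ ρ ^ m := pow_le_pow_of_le_one hρ0 hρ1.le (Nat.le_succ m)
      linarith
    have hτ1 : ρ ^ (m + 1) ≤ 1 / 2 := hτ.trans (min_le_left _ _)
    have hτ2 : ρ ^ (m + 1) ≤ η := hτ.trans (min_le_right _ _)
    have hMτ : M * ρ ^ (m + 1) ≤ 1 / 2 := by
      rw [← hMη]
      exact mul_le_mul_of_nonneg_left hτ2 hM0.le
    have hs : ∀ k, |2 * σ * x k| ≤ 2 * σ * A ∧ |2 * σ * y k| ≤ 2 * σ * A := by
      intro k
      have h1 : |2 * σ| = 2 * σ := abs_of_pos (by positivity)
      constructor
      · rw [abs_mul, h1]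
        exact mul_le_mul_of_nonneg_left (hxA k).1 (by positivity)
      · rw [abs_mul, h1]
        exact mul_le_mul_of_nonneg_left (hxA k).2 (by positivity)
    refine ⟨m + 1, Nat.succ_pos m, ?_⟩
    obtain ⟨X, hX, hXs⟩ := hFEAS (m + 1) σ M η (ρ ^ (m + 1)) n w (fun k => 2 * σ * x k)
      (fun k => 2 * σ * y k) (Nat.succ_pos m) hσ0 hM0.le (by rw [mul_add]; linarith) hw hw1
      (fun k => ⟨(hs k).1.trans hσA, (hs k).2.trans hσA⟩)
      (by
        intro k
        have h1 := (abs_le.1 ((hs k).1.trans hσA)).1
        have h2 := (abs_le.1 ((hs k).2.trans hσA)).1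
        rcases hxy k with h | h
        · left
          intro z
          exact hρ (m + 1) _ h1 (by nlinarith) z
        · right
          intro z
          exact hρ (m + 1) _ h2 (by nlinarith) z)
      (by
        intro i j
        by_cases hij : i < L ∧ j < L
        · have h1 := hmom i j hij.1 hij.2
          have h2 : ∑ k, w k * ((2 * σ * x k) ^ i * (2 * σ * y k) ^ j) =
              (2 * σ) ^ i * (2 * σ) ^ j * ∑ k, w k * (x k ^ i * y k ^ j) := by
            rw [Finset.mul_sum]
            exact Finset.sum_congr rfl fun k _ => by rw [mul_pow, mul_pow]; ring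
          rw [h2]
          have h3 : 0 ≤ (2 * σ) ^ i * (2 * σ) ^ j * ∑ k, w k * (x k ^ i * y k ^ j) := by
            positivity
          linarith
        · have hk : ∀ k, |(2 * σ * x k) ^ i * (2 * σ * y k) ^ j| ≤ η := by
            intro k
            rw [abs_mul, abs_pow, abs_pow]
            have hx1 : |2 * σ * x k| ≤ 1 := (hs k).1.trans hσA
            have hy1 : |2 * σ * y k| ≤ 1 := (hs k).2.trans hσA
            have hcase : L ≤ i ∨ L ≤ j := by
              by_contra h
              push Not at h
              exact hij h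
            rcases hcase with h | h
            · calc |2 * σ * x k| ^ i * |2 * σ * y k| ^ j ≤ (2 * σ * A) ^ i * 1 := by
                    apply mul_le_mul
                    · exact pow_le_pow_left₀ (abs_nonneg _) (hs k).1 i
                    · exact pow_le_one₀ (abs_nonneg _) hy1
                    · positivity
                    · positivity
                _ ≤ (2 * σ * A) ^ L := by
                    rw [mul_one]
                    exact pow_le_pow_of_le_one hσA0.le hσA h
            · calc |2 * σ * x k| ^ i * |2 * σ * y k| ^ j ≤ 1 * (2 * σ * A) ^ j := by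
                    apply mul_le_mul
                    · exact pow_le_one₀ (abs_nonneg _) hx1
                    · exact pow_le_pow_left₀ (abs_nonneg _) (hs k).2 j
                    · positivity
                    · norm_num
                _ ≤ (2 * σ * A) ^ L := by
                    rw [one_mul]
                    exact pow_le_pow_of_le_one hσA0.le hσA h
          calc -η = ∑ k, w k * (-η) := by rw [← Finset.sum_mul, hw1, one_mul]
            _ ≤ ∑ k, w k * ((2 * σ * x k) ^ i * (2 * σ * y k) ^ j) :=
                Finset.sum_le_sum fun k _ =>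
                  mul_le_mul_of_nonneg_left (abs_le.1 (hk k)).1 (hw k))
    refine ⟨X, hX, ?_⟩
    have h1 : M / 2 ≤ ∑ u, ∑ v, X u v := by
      have h2 : M * (1 / 2) ≤ M * (1 - ρ ^ (m + 1)) :=
        mul_le_mul_of_nonneg_left (by linarith) hM0.le
      linarith
    refine le_trans (le_of_eq ?_) h1
    rw [hM, hη, mul_pow, mul_pow, mul_pow]
    field_simp
    norm_num

end Pool.Agent.Q121.SN.LOWER
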