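import Pool.Agent.Q264.SN.Stm

set_option autoImplicit false

namespace Pool.Agent.Q121.SN.TAIL

open Finset Pool.Agent.Q264.SN

lemma sg_sq (b : Bool) : sg b * sg b = 1 := by
  cases b <;> norm_num [sg]

lemma sg_cases (a b : Bool) : sg a * sg b = 1 ∨ sg a * sg b = -1 := by
  cases a <;> cases b <;> norm_num [sg]

lemma ker_nonneg {N : ℕ} {s : ℝ} (h1 : -1 ≤ s) (h2 : s ≤ 1) (x y : Cube N) : 0 ≤ ker s x y := by
  unfold ker
  apply Finset.prod_nonneg
  intro i _
  rcases sg_cases (x i) (y i) with h | h <;> rw [h] <;> linarith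

lemma factor (s l : ℝ) (a : Bool) :
    ∑ b : Bool, (1 + s * (sg a * sg b)) / 2 * Real.exp (l * (sg a * sg b)) =
      Real.cosh l + s * Real.sinh l := by
  rw [Real.cosh_eq, Real.sinh_eq, Fintype.sum_bool]
  cases a
  · simp only [sg]
    norm_num
    ring
  · simp only [sg]
    norm_num
    ring

lemma expand {N : ℕ} (s l : ℝ) (x : Cube N) :
    ∑ y : Cube N, ker s x y * Real.exp (l * dot x y) = (Real.cosh l + s * Real.sinh l) ^ N := by
  have h1 : ∀ y : Cube N, ker s x y * Real.exp (l * dot x y) =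
      ∏ i, ((1 + s * (sg (x i) * sg (y i))) / 2 * Real.exp (l * (sg (x i) * sg (y i)))) := by
    intro y
    rw [Finset.prod_mul_distrib]
    unfold ker dot
    congr 1
    rw [Finset.mul_sum, Real.exp_sum]
  rw [Finset.sum_congr rfl (fun y _ => h1 y)]
  have h2 := (Finset.prod_univ_sum (fun _ : Fin N => (Finset.univ : Finset Bool))
    (fun i b => (1 + s * (sg (x i) * sg b)) / 2 * Real.exp (l * (sg (x i) * sg b)))).symm
  rw [Fintype.piFinset_univ] at h2
  rw [h2]
  rw [Finset.prod_congr rfl (fun i _ => factor s l (x i))]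
  simp

lemma phi_lt (σ : ℝ) (h0 : 0 < σ) (h1 : σ ≤ 1 / 2) :
    Real.exp (σ / 2 * σ) * (Real.cosh (σ / 2) - 2 * σ * Real.sinh (σ / 2)) < 1 := by
  have hc : Real.cosh (σ / 2) ≤ Real.exp ((σ / 2) ^ 2 / 2) := Real.cosh_le_exp_half_sq _
  have hs : σ / 2 ≤ Real.sinh (σ / 2) := Real.self_le_sinh_iff.2 (by linarith)
  have h2 : Real.cosh (σ / 2) - 2 * σ * Real.sinh (σ / 2) ≤
      Real.exp ((σ / 2) ^ 2 / 2) - σ ^ 2 := by nlinarith
  have he : 1 ≤ Real.exp (σ / 2 * σ) := Real.one_le_exp (by positivity)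
  have hpos : 0 < Real.exp (σ / 2 * σ) := Real.exp_pos _
  have h3 : Real.exp (σ / 2 * σ) * (Real.cosh (σ / 2) - 2 * σ * Real.sinh (σ / 2)) ≤
      Real.exp (σ / 2 * σ) * (Real.exp ((σ / 2) ^ 2 / 2) - σ ^ 2) :=
    mul_le_mul_of_nonneg_left h2 hpos.le
  have h4 : Real.exp (σ / 2 * σ) * Real.exp ((σ / 2) ^ 2 / 2) = Real.exp (5 / 8 * σ ^ 2) := by
    rw [← Real.exp_add]
    congr 1
    ring
  have ht : σ ^ 2 ≤ 1 / 4 := by nlinarith
  have ht0 : 0 < σ ^ 2 := by positivity
  have h5 : |Real.exp (5 / 8 * σ ^ 2) - 1 - 5 / 8 * σ ^ 2| ≤ (5 / 8 * σ ^ 2) ^ 2 := by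
    apply Real.abs_exp_sub_one_sub_id_le
    rw [abs_of_nonneg (by positivity)]
    linarith
  have h6 := (abs_le.1 h5).2
  have h7 : σ ^ 2 ≤ Real.exp (σ / 2 * σ) * σ ^ 2 := by nlinarith
  have h8 : Real.exp (σ / 2 * σ) * (Real.exp ((σ / 2) ^ 2 / 2) - σ ^ 2) =
      Real.exp (5 / 8 * σ ^ 2) - Real.exp (σ / 2 * σ) * σ ^ 2 := by
    rw [mul_sub, h4]
  have h9 : (5 / 8 * σ ^ 2) ^ 2 ≤ 25 / 256 * σ ^ 2 := by nlinarith
  linarith

theorem t_TAIL : S_TAIL := by
  intro σ h0 h1
  set l : ℝ := σ / 2 with hl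
  have hl0 : 0 < l := by rw [hl]; positivity
  have hsinh : 0 < Real.sinh l := Real.sinh_pos_iff.2 hl0
  have hcs : 0 < Real.cosh l - Real.sinh l := by
    rw [Real.cosh_sub_sinh]
    exact Real.exp_pos _
  refine ⟨Real.exp (l * σ) * (Real.cosh l - 2 * σ * Real.sinh l), ?_, phi_lt σ h0 h1, ?_⟩
  · apply mul_nonneg (Real.exp_pos _).le
    nlinarith
  · intro N s hs1 hs2 x
    have hs3 : s ≤ 1 := by linarith
    calc ∑ y with -(σ * N) < dot x y, ker s x y
        ≤ ∑ y with -(σ * N) < dot x y, ker s x y * Real.exp (l * dot x y) * Real.exp (l * σ * N) := by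
          apply Finset.sum_le_sum
          intro y hy
          rw [Finset.mem_filter] at hy
          have hk := ker_nonneg hs1 hs3 x y
          have he : 1 ≤ Real.exp (l * dot x y) * Real.exp (l * σ * N) := by
            rw [← Real.exp_add]
            apply Real.one_le_exp
            have : 0 < dot x y + σ * N := by linarith [hy.2]
            nlinarith
          rw [mul_assoc]
          nlinarith
      _ ≤ ∑ y, ker s x y * Real.exp (l * dot x y) * Real.exp (l * σ * N) := by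
          apply Finset.sum_le_sum_of_subset_of_nonneg (Finset.filter_subset _ _)
          intro y _ _
          have hk := ker_nonneg hs1 hs3 x y
          positivity
      _ = (Real.cosh l + s * Real.sinh l) ^ N * Real.exp (l * σ * N) := by
          rw [← Finset.sum_mul, expand]
      _ = (Real.exp (l * σ) * (Real.cosh l + s * Real.sinh l)) ^ N := by
          rw [mul_pow, ← Real.exp_nat_mul, mul_comm]
          congr 2
          ring
      _ ≤ (Real.exp (l * σ) * (Real.cosh l - 2 * σ * Real.sinh l)) ^ N := by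
          apply pow_le_pow_left₀
          · apply mul_nonneg (Real.exp_pos _).le
            nlinarith
          · apply mul_le_mul_of_nonneg_left _ (Real.exp_pos _).le
            nlinarith

end Pool.Agent.Q121.SN.TAIL
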