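import Pool.Agent.Q264.SN.Stm

set_option autoImplicit false

namespace Pool.Agent.Q121.SN.TWO

open Finset Pool.Agent.Q264.SN

lemma psd_form {V : Type} [Fintype V] {X : Matrix V V ℝ} (h : X.PosSemidef) (f : V → ℝ) :
    0 ≤ ∑ u, ∑ v, f u * X u v * f v := by
  have h1 := h.dotProduct_mulVec_nonneg f
  have h2 : dotProduct (star f) (X.mulVec f) = ∑ u, ∑ v, f u * X u v * f v := by
    simp only [dotProduct, Matrix.mulVec, Pi.star_apply, star_trivial, Finset.mul_sum]
    exact Finset.sum_congr rfl fun u _ => Finset.sum_congr rfl fun v _ => by ring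
  rw [← h2]
  exact h1

lemma psd_symm {V : Type} [Fintype V] {X : Matrix V V ℝ} (h : X.PosSemidef) (u v : V) :
    X u v = X v u := by
  have h1 := h.1.apply v u
  simpa using h1

lemma psd_two {V : Type} [Fintype V] {X : Matrix V V ℝ} (h : X.PosSemidef) (a b : V) :
    2 * X a b ≤ X a a + X b b := by
  classical
  have h1 := psd_form h (fun u => (if u = a then (1 : ℝ) else 0) - (if u = b then (1 : ℝ) else 0))
  have h2 : ∑ u, ∑ v, ((if u = a then (1 : ℝ) else 0) - (if u = b then (1 : ℝ) else 0)) * X u v *
      ((if v = a then (1 : ℝ) else 0) - (if v = b then (1 : ℝ) else 0)) =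
      X a a - X a b - (X b a - X b b) := by
    have h3 : ∀ u, ∑ v, ((if u = a then (1 : ℝ) else 0) - (if u = b then (1 : ℝ) else 0)) * X u v *
        ((if v = a then (1 : ℝ) else 0) - (if v = b then (1 : ℝ) else 0)) =
        ((if u = a then (1 : ℝ) else 0) - (if u = b then (1 : ℝ) else 0)) * (X u a - X u b) := by
      intro u
      have h4 : ∀ v, ((if u = a then (1 : ℝ) else 0) - (if u = b then (1 : ℝ) else 0)) * X u v *
          ((if v = a then (1 : ℝ) else 0) - (if v = b then (1 : ℝ) else 0)) =
          ((if u = a then (1 : ℝ) else 0) - (if u = b then (1 : ℝ) else 0)) *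
            ((if v = a then X u v else 0) - (if v = b then X u v else 0)) := by
        intro v
        split_ifs <;> ring
      rw [Finset.sum_congr rfl (fun v _ => h4 v), ← Finset.mul_sum, Finset.sum_sub_distrib,
        Finset.sum_ite_eq' Finset.univ a (fun v => X u v),
        Finset.sum_ite_eq' Finset.univ b (fun v => X u v)]
      simp
    rw [Finset.sum_congr rfl (fun u _ => h3 u)]
    have h5 : ∀ u, ((if u = a then (1 : ℝ) else 0) - (if u = b then (1 : ℝ) else 0)) *
        (X u a - X u b) = (if u = a then X u a - X u b else 0) - (if u = b then X u a - X u b else 0) := by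
      intro u
      split_ifs <;> ring
    rw [Finset.sum_congr rfl (fun u _ => h5 u), Finset.sum_sub_distrib,
      Finset.sum_ite_eq' Finset.univ a (fun u => X u a - X u b),
      Finset.sum_ite_eq' Finset.univ b (fun u => X u a - X u b)]
    simp
  rw [h2] at h1
  have h6 := psd_symm h a b
  linarith

theorem t_BDD : S_BDD := by
  rintro V _ G t ⟨X, ⟨hX, _, htr, _⟩, rfl⟩
  have h1 : ∑ u, ∑ v, X u v ≤ ∑ u : V, ∑ v : V, (X u u + X v v) / 2 := by
    apply Finset.sum_le_sum
    intro u _
    apply Finset.sum_le_sum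
    intro v _
    have := psd_two hX u v
    linarith
  have htr' : ∑ u, X u u = 1 := by
    rw [← htr, Matrix.trace]
    rfl
  have h2 : ∑ u : V, ∑ v : V, (X u u + X v v) / 2 = Fintype.card V := by
    have h3 : ∀ u : V, ∑ v : V, (X u u + X v v) / 2 = (Fintype.card V * X u u + 1) / 2 := by
      intro u
      rw [← Finset.sum_div, Finset.sum_add_distrib, htr']
      simp
    rw [Finset.sum_congr rfl (fun u _ => h3 u), ← Finset.sum_div, Finset.sum_add_distrib,
      ← Finset.mul_sum, htr']
    simp
  rw [h2] at h1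
  exact h1

theorem t_TWO (hBDD : S_BDD) : S_TWO := by
  classical
  intro V _ G a b hab hadj
  have hbd : BddAbove (values G) := ⟨_, fun t ht => hBDD V G t ht⟩
  set e : V → ℝ := fun u => (if u = a then (1 : ℝ) else 0) + (if u = b then (1 : ℝ) else 0) with he
  have he0 : ∀ u, 0 ≤ e u := fun u => by
    simp only [he]; split_ifs <;> norm_num
  have hsum : ∑ u, e u = 2 := by
    simp only [he]
    rw [Finset.sum_add_distrib, Finset.sum_ite_eq' Finset.univ a (fun _ => (1 : ℝ)),
      Finset.sum_ite_eq' Finset.univ b (fun _ => (1 : ℝ))]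
    simp
    norm_num
  have hsq : ∀ u, e u * e u = e u := by
    intro u
    simp only [he]
    by_cases h1 : u = a
    · have h2 : u ≠ b := fun h => hab (h1 ▸ h)
      simp [h1, hab]
    · by_cases h2 : u = b <;> simp [h1, h2, hab.symm]
  set X : Matrix V V ℝ := (1 / 2 : ℝ) • Matrix.vecMulVec e (star e) with hX
  have hXv : ∀ u v, X u v = 1 / 2 * (e u * e v) := by
    intro u v
    simp [hX, Matrix.vecMulVec_apply]
  apply le_csSup hbd
  refine ⟨X, ⟨?_, ?_, ?_, ?_⟩, ?_⟩
  · exact (Matrix.posSemidef_vecMulVec_self_star e).smul (by norm_num)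
  · intro u v
    rw [hXv]
    have := mul_nonneg (he0 u) (he0 v)
    linarith
  · rw [Matrix.trace]
    have h1 : ∀ u, X.diag u = 1 / 2 * e u := fun u => by
      rw [Matrix.diag_apply, hXv, hsq]
    rw [Finset.sum_congr rfl (fun u _ => h1 u), ← Finset.mul_sum, hsum]
    norm_num
  · intro u v huv
    rw [hXv]
    have hne : ¬ (e u ≠ 0 ∧ e v ≠ 0) := by
      rintro ⟨h1, h2⟩
      have h3 : ∀ w, e w ≠ 0 → w = a ∨ w = b := by
        intro w hw
        by_contra hcon
        push Not at hcon
        apply hw
        simp [he, hcon.1, hcon.2]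
      rcases h3 u h1 with rfl | rfl <;> rcases h3 v h2 with rfl | rfl
      · exact huv.ne rfl
      · exact hadj huv
      · exact hadj huv.symm
      · exact huv.ne rfl
    by_cases h1 : e u = 0
    · rw [h1]; ring
    · have h2 : e v = 0 := by
        by_contra h
        exact hne ⟨h1, h⟩
      rw [h2]; ring
  · have h1 : ∑ u, ∑ v, X u v = 1 / 2 * ((∑ u, e u) * ∑ v, e v) := by
      rw [Finset.sum_mul_sum, Finset.mul_sum]
      exact Finset.sum_congr rfl fun u _ => by
        rw [Finset.mul_sum]
        exact Finset.sum_congr rfl fun v _ => hXv u v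
    rw [h1, hsum]
    norm_num

lemma dot_self {N : ℕ} (x : Cube N) : dot x x = N := by
  have : ∀ i : Fin N, sg (x i) * sg (x i) = 1 := fun i => by cases x i <;> norm_num [sg]
  simp [dot, this]

theorem t_UP : S_UP := by
  classical
  intro N σ hN hσ
  have hN' : (0 : ℝ) < N := by exact_mod_cast hN
  have h01 : (0 : ℝ) ≤ 1 + 1 / σ := by positivity
  apply Real.sSup_le _ h01
  rintro t ⟨X, ⟨hX, hnn, htr, hadj⟩, rfl⟩
  have htr' : ∑ u, X u u = 1 := by
    rw [← htr, Matrix.trace]
    rfl
  -- the quadratic forms
  have h1 : 0 ≤ ∑ u, ∑ v, X u v * dot u v := by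
    have h2 : ∑ u, ∑ v, X u v * dot u v = ∑ i : Fin N, ∑ u : Cube N, ∑ v : Cube N,
        sg (u i) * X u v * sg (v i) := by
      have h3 : ∀ u v : Cube N, X u v * dot u v = ∑ i : Fin N, sg (u i) * X u v * sg (v i) := by
        intro u v
        rw [dot, Finset.mul_sum]
        exact Finset.sum_congr rfl fun i _ => by ring
      rw [Finset.sum_congr rfl (fun u _ => Finset.sum_congr rfl (fun v _ => h3 u v))]
      rw [Finset.sum_congr rfl (fun u _ => Finset.sum_comm)]
      exact Finset.sum_comm
    rw [h2]
    exact Finset.sum_nonneg fun i _ => psd_form hX (fun u => sg (u i))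
  -- pointwise estimate
  have h2 : ∀ u v : Cube N, X u v * dot u v ≤
      (if u = v then (N : ℝ) * X u u else 0) - σ * N * (X u v - if u = v then X u u else 0) := by
    intro u v
    by_cases huv : u = v
    · subst huv
      simp [dot_self, mul_comm]
    · simp only [huv, if_false, sub_zero, zero_sub]
      by_cases ha : (cubeGraph N σ).Adj u v
      · rw [hadj u v ha]
        simp
      · have h3 : dot u v ≤ -(σ * N) := by
          by_contra h
          push Not at h
          exact ha ⟨huv, h⟩
        have := mul_le_mul_of_nonneg_left h3 (hnn u v)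
        linarith
  have h3 : ∑ u, ∑ v, X u v * dot u v ≤ N - σ * N * (∑ u, ∑ v, X u v - 1) := by
    calc ∑ u, ∑ v, X u v * dot u v ≤ ∑ u, ∑ v, ((if u = v then (N : ℝ) * X u u else 0) -
          σ * N * (X u v - if u = v then X u u else 0)) :=
          Finset.sum_le_sum fun u _ => Finset.sum_le_sum fun v _ => h2 u v
      _ = N - σ * N * (∑ u, ∑ v, X u v - 1) := by
          have h4 : ∀ u : Cube N, ∑ v : Cube N, ((if u = v then (N : ℝ) * X u u else 0) -
              σ * N * (X u v - if u = v then X u u else 0)) =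
              N * X u u - σ * N * (∑ v, X u v - X u u) := by
            intro u
            rw [Finset.sum_sub_distrib, ← Finset.mul_sum, Finset.sum_sub_distrib]
            simp
          rw [Finset.sum_congr rfl (fun u _ => h4 u), Finset.sum_sub_distrib, ← Finset.mul_sum,
            ← Finset.mul_sum, Finset.sum_sub_distrib, htr']
          ring
  have h4 : 0 ≤ (N : ℝ) * (1 - σ * (∑ u, ∑ v, X u v - 1)) := by
    have := h1.trans h3
    linarith
  have h5 : 0 ≤ 1 - σ * (∑ u, ∑ v, X u v - 1) := by
    by_contra h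
    push Not at h
    have := mul_neg_of_pos_of_neg hN' h
    linarith
  have h6 : ∑ u, ∑ v, X u v - 1 ≤ 1 / σ := by
    rw [le_div_iff₀ hσ]
    linarith
  linarith

end Pool.Agent.Q121.SN.TWO
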